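import Pool.Agent.Q109.RB.Density

/-!
If the `p`-subdivision of `K_n` has bounded reduced bandwidth, then `p` is at least linear in `n`.
-/

set_option autoImplicit false

namespace Pool.Agent.Results.MP_ec82ff_co.LinearSubdivision

open Q109.RB

/-- The vertices of the `p`-subdivision of `K_n`: the branch vertices `0, …, n-1` and, for each pair
`i < j`, the `p` internal vertices of the path replacing the edge `ij`. -/
abbrev SubVert (n p : ℕ) : Type := Fin n ⊕ ({e : Fin n × Fin n // e.1 < e.2} × Fin p)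

/-- Adjacency, in one direction: along the path replacing the edge `ij` with `i < j` the vertices
are `i, (ij, 0), (ij, 1), …, (ij, p-1), j`. -/
def subRel (n p : ℕ) : SubVert n p → SubVert n p → Prop
  | Sum.inl i, Sum.inr (e, s) => (i = e.1.1 ∧ s.val = 0) ∨ (i = e.1.2 ∧ s.val + 1 = p)
  | Sum.inr (e, s), Sum.inr (e', s') => e = e' ∧ s.val + 1 = s'.val
  | _, _ => False

/-- The `p`-subdivision of `K_n`, for `p ≥ 1`. -/
def subdividedComplete (n p : ℕ) : SimpleGraph (SubVert n p) := SimpleGraph.fromRel (subRel n p)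

lemma adj_ll {n p : ℕ} (i j : Fin n) :
    ¬ (subdividedComplete n p).Adj (Sum.inl i) (Sum.inl j) := by
  simp [subdividedComplete, subRel]

lemma adj_lr {n p : ℕ} (i : Fin n) (e : {e : Fin n × Fin n // e.1 < e.2}) (s : Fin p) :
    (subdividedComplete n p).Adj (Sum.inl i) (Sum.inr (e, s)) ↔
      (i = e.1.1 ∧ s.val = 0) ∨ (i = e.1.2 ∧ s.val + 1 = p) := by
  simp [subdividedComplete, subRel]

lemma adj_rr {n p : ℕ} (e e' : {e : Fin n × Fin n // e.1 < e.2}) (s s' : Fin p) :
    (subdividedComplete n p).Adj (Sum.inr (e, s)) (Sum.inr (e', s')) ↔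
      e = e' ∧ (s.val + 1 = s'.val ∨ s'.val + 1 = s.val) := by
  simp only [subdividedComplete, subRel, SimpleGraph.fromRel_adj]
  constructor
  · rintro ⟨-, ⟨h1, h2⟩ | ⟨h1, h2⟩⟩
    · exact ⟨h1, Or.inl h2⟩
    · exact ⟨h1.symm, Or.inr h2⟩
  · rintro ⟨rfl, h⟩
    refine ⟨?_, ?_⟩
    · intro hc
      simp only [Sum.inr.injEq, Prod.mk.injEq, true_and] at hc
      subst hc
      omega
    · rcases h with h | h
      · exact Or.inl ⟨rfl, h⟩
      · exact Or.inr ⟨rfl, h⟩

/-- no four-cycles -/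
lemma noC4 {n p : ℕ} (a a' b b' : SubVert n p) (ha : a ≠ a') (hb : b ≠ b')
    (h1 : (subdividedComplete n p).Adj a b) (h2 : (subdividedComplete n p).Adj a b')
    (h3 : (subdividedComplete n p).Adj a' b) (h4 : (subdividedComplete n p).Adj a' b') : False := by
  have hlt : ∀ e : {e : Fin n × Fin n // e.1 < e.2}, e.1.1.val < e.1.2.val := fun e => e.2
  rcases a with i | ⟨e1, s1⟩ <;> rcases a' with i' | ⟨e2, s2⟩ <;>
    rcases b with k | ⟨e3, s3⟩ <;> rcases b' with k' | ⟨e4, s4⟩ <;>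
    simp only [adj_ll, adj_lr, adj_rr, SimpleGraph.adj_comm _ (Sum.inr _) (Sum.inl _),
      ne_eq, Sum.inl.injEq, Sum.inr.injEq, Subtype.ext_iff, Prod.ext_iff, Fin.ext_iff,
      reduceCtorEq, not_false_eq_true, not_and] at ha hb h1 h2 h3 h4
  all_goals
    try have g1 := hlt e1
    try have g2 := hlt e2
    try have g3 := hlt e3
    try have g4 := hlt e4
    omega

/-- the walk from a branch vertex along a subdivided edge -/
lemma exists_walk {n p : ℕ} (e : {e : Fin n × Fin n // e.1 < e.2}) : ∀ (s : ℕ) (hs : s < p),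
    ∃ q : (subdividedComplete n p).Walk (Sum.inl e.1.1) (Sum.inr (e, ⟨s, hs⟩)),
      q.length ≤ s + 1 ∧ ∀ w ∈ q.support, w = Sum.inl e.1.1 ∨ ∃ t, w = Sum.inr (e, t) := by
  intro s
  induction s with
  | zero =>
    intro hs
    have h : (subdividedComplete n p).Adj (Sum.inl e.1.1) (Sum.inr (e, ⟨0, hs⟩)) := by
      rw [adj_lr]; exact Or.inl ⟨rfl, rfl⟩
    refine ⟨SimpleGraph.Walk.cons h SimpleGraph.Walk.nil, by simp, ?_⟩
    intro w hw
    simp only [SimpleGraph.Walk.support_cons, SimpleGraph.Walk.support_nil, List.mem_cons,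
      List.not_mem_nil, or_false] at hw
    rcases hw with rfl | rfl
    · exact Or.inl rfl
    · exact Or.inr ⟨_, rfl⟩
  | succ s ih =>
    intro hs
    obtain ⟨q, hq, hq2⟩ := ih (by omega)
    have h : (subdividedComplete n p).Adj (Sum.inr (e, ⟨s, by omega⟩)) (Sum.inr (e, ⟨s + 1, hs⟩)) := by
      rw [adj_rr]; exact ⟨rfl, Or.inl rfl⟩
    refine ⟨q.concat h, by rw [SimpleGraph.Walk.length_concat]; omega, ?_⟩
    intro w hw
    rw [SimpleGraph.Walk.support_concat, List.mem_append] at hw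
    rcases hw with hw | hw
    · exact hq2 w hw
    · rw [List.mem_singleton] at hw
      exact Or.inr ⟨_, hw⟩

/-- the branch sets -/
def branch {n p : ℕ} (i : Fin n) : Set (SubVert n p) :=
  {w | w = Sum.inl i ∨ ∃ (e : {e : Fin n × Fin n // e.1 < e.2}) (t : Fin p), e.1.1 = i ∧
    w = Sum.inr (e, t)}

lemma model {n p : ℕ} (hp : 1 ≤ p) :
    Model (subdividedComplete n p) (⊤ : SimpleGraph (Fin n)) p branch := by
  refine ⟨?_, ?_, ?_⟩
  · intro i j hij
    rw [Set.disjoint_left]
    rintro w (rfl | ⟨e, t, h1, rfl⟩) (h2 | ⟨e', t', h2, h3⟩)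
    · exact hij (by simpa using h2)
    · simp at h3
    · simp at h2
    · simp only [Sum.inr.injEq, Prod.mk.injEq] at h3
      obtain ⟨rfl, rfl⟩ := h3
      exact hij (h1.symm.trans h2)
  · intro i
    refine ⟨Sum.inl i, Or.inl rfl, ?_⟩
    rintro y (rfl | ⟨e, t, rfl, rfl⟩)
    · refine ⟨SimpleGraph.Walk.nil, by simp, ?_⟩
      intro w hw
      rw [SimpleGraph.Walk.support_nil, List.mem_singleton] at hw
      exact Or.inl hw
    · obtain ⟨q, hq, hq2⟩ := exists_walk e t.1 t.2
      have := t.2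
      refine ⟨q, by omega, ?_⟩
      intro w hw
      rcases hq2 w hw with h | ⟨t', h⟩
      · exact Or.inl h
      · exact Or.inr ⟨e, t', rfl, h⟩
  · have key : ∀ i j : Fin n, i < j → ∃ a ∈ (branch i : Set (SubVert n p)),
        ∃ b ∈ (branch j : Set (SubVert n p)), (subdividedComplete n p).Adj a b := by
      intro i j hij
      refine ⟨Sum.inr (⟨(i, j), hij⟩, ⟨p - 1, by omega⟩), Or.inr ⟨_, _, rfl, rfl⟩, Sum.inl j,
        Or.inl rfl, ?_⟩
      rw [SimpleGraph.adj_comm, adj_lr]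
      refine Or.inr ⟨rfl, ?_⟩
      change p - 1 + 1 = p
      omega
    intro i j hij
    rcases lt_or_gt_of_ne hij with h | h
    · exact key i j h
    · obtain ⟨a, ha, b, hb, hab⟩ := key j i h
      exact ⟨b, hb, a, ha, hab.symm⟩

lemma noK {n p : ℕ} : NoK (subdividedComplete n p) 2 := by
  rintro ⟨A, B, hA, hB, hAB⟩
  rw [Finset.card_eq_two] at hA hB
  obtain ⟨a, a', ha, rfl⟩ := hA
  obtain ⟨b, b', hb, rfl⟩ := hB
  exact noC4 a a' b b' ha hb (hAB a (by simp) b (by simp)) (hAB a (by simp) b' (by simp))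
    (hAB a' (by simp) b (by simp)) (hAB a' (by simp) b' (by simp))

/-- an explicit bound -/
theorem le_of_reducedBandwidth {n p k : ℕ} (hn : 1 ≤ n) (hp : 1 ≤ p)
    (h : reducedBandwidth (subdividedComplete n p) ≤ k) : n ≤ (16 * k + 4) * p := by
  classical
  obtain ⟨π, f, hS⟩ := exists_pseq _ h
  have : Nonempty (Fin n) := ⟨⟨0, hn⟩⟩
  have h1 := min_degree_le (le_refl 2) noK hS (model hp) (D := n - 1) (by
    intro w
    have h2 : ((Finset.univ : Finset (Fin n)).erase w).card = n - 1 := by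
      rw [Finset.card_erase_of_mem (Finset.mem_univ _)]
      simp
    rw [← h2]
    apply Finset.card_le_card
    intro x hx
    rw [Finset.mem_erase] at hx
    simpa using hx.1.symm)
  have h2 : 2 * ((2 - 1) * (2 * (k * (3 * p + 1)) + 1)) = 12 * (k * p) + 4 * k + 2 := by
    norm_num
    ring
  have h3 : (16 * k + 4) * p = 16 * (k * p) + 4 * p := by ring
  have h4 : k ≤ k * p := Nat.le_mul_of_pos_right _ hp
  rw [h2] at h1
  omega

/-- For every constant `c` there is `δ > 0` such that `p ≥ δ n` for all `n ≥ 2` and `p ≥ 1` for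
which the `p`-subdivision of `K_n` has reduced bandwidth at most `c`. -/
theorem result : ∀ c : ℝ, ∃ δ : ℝ, 0 < δ ∧ ∀ n p : ℕ, 2 ≤ n → 1 ≤ p →
    (reducedBandwidth (subdividedComplete n p) : ℝ) ≤ c → δ * n ≤ p := by
  intro c
  refine ⟨1 / (16 * ⌊c⌋₊ + 4), by positivity, ?_⟩
  intro n p hn hp h
  have h1 : reducedBandwidth (subdividedComplete n p) ≤ ⌊c⌋₊ := Nat.le_floor h
  have h2 := le_of_reducedBandwidth (by omega) hp h1
  rw [one_div, inv_mul_le_iff₀ (by positivity)]
  exact_mod_cast h2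

end Pool.Agent.Results.MP_ec82ff_co.LinearSubdivision
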